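import Mathlib
import Pool.Agent.Lib_helper30.BN.Defs
import Pool.Agent.Lib_helper30.BN.TreeDefs
set_option autoImplicit false

/-! Common lemmas for the H blocks: the sets `Dset`, `Kset` -/

namespace Pool.Agent.BN
open Act

variable {k n : ℕ}

theorem hc_D_inl (j : ℕ) (a : Fin n) : (Sum.inl a : Fin n ⊕ Fin k) ∈ Dset k n j ↔ a.val < j := by
  unfold Dset
  simp

theorem hc_D_inr (j : ℕ) (a : Fin k) : (Sum.inr a : Fin n ⊕ Fin k) ∈ Dset k n j := by
  unfold Dset
  simp

theorem hc_K_inl (j : ℕ) (a : Fin n) : (Sum.inl a : Fin n ⊕ Fin k) ∈ Kset k n j ↔ a.val < j := by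
  unfold Kset
  simp

theorem hc_K_inr (j : ℕ) (a : Fin k) : (Sum.inr a : Fin n ⊕ Fin k) ∈ Kset k n j ↔ j ≤ a.val := by
  unfold Kset
  simp

theorem hc_D_succ (j : ℕ) (hj : j < n) :
    Dset k n (j + 1) = insert (Sum.inl (⟨j, hj⟩ : Fin n)) (Dset k n j) := by
  ext v
  rcases v with a | a
  · rw [hc_D_inl, Finset.mem_insert, hc_D_inl, Sum.inl.injEq, Fin.ext_iff]
    simp only []
    omega
  · rw [Finset.mem_insert]
    exact ⟨fun _ => Or.inr (hc_D_inr j a), fun _ => hc_D_inr (j + 1) a⟩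

theorem hc_K_succ (j : ℕ) (hj : j < n) (hk : j < k) :
    Kset k n (j + 1) = insert (Sum.inl (⟨j, hj⟩ : Fin n))
      ((Kset k n j).erase (Sum.inr (⟨j, hk⟩ : Fin k))) := by
  ext v
  rcases v with a | a
  · rw [hc_K_inl, Finset.mem_insert, Finset.mem_erase, hc_K_inl, Sum.inl.injEq, Fin.ext_iff]
    simp only [ne_eq, reduceCtorEq, not_false_eq_true, true_and]
    omega
  · rw [hc_K_inr, Finset.mem_insert, Finset.mem_erase, hc_K_inr, ne_eq, Sum.inr.injEq,
      Fin.ext_iff]
    simp only [reduceCtorEq, false_or]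
    omega

theorem hc_new (j : ℕ) (hj : j < n) : (Sum.inl (⟨j, hj⟩ : Fin n) : Fin n ⊕ Fin k) ∉ Dset k n j := by
  rw [hc_D_inl]
  exact lt_irrefl _

theorem hc_ext_adj {G : SimpleGraph (Fin n)} (a b : Fin n) :
    (extG G k).Adj (Sum.inl a) (Sum.inl b) ↔ G.Adj a b := by
  constructor
  · rintro ⟨a', b', h1, h2, h3⟩
    rw [Sum.inl.injEq] at h1 h2
    rw [h1, h2]; exact h3
  · intro h
    exact ⟨a, b, rfl, rfl, h⟩

/-- neighbours of a real vertex are real -/
theorem hc_ext_nb {G : SimpleGraph (Fin n)} (a : Fin n) (v : Fin n ⊕ Fin k)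
    (h : (extG G k).Adj (Sum.inl a) v) : ∃ b, v = Sum.inl b ∧ G.Adj a b := by
  obtain ⟨a', b', h1, h2, h3⟩ := h
  rw [Sum.inl.injEq] at h1
  exact ⟨b', h2, h1 ▸ h3⟩

/-- a set of `k` elements which contains `J`, with the other elements in a set `K0` of `k` elements
not containing `J` -/
theorem hc_swap {α : Type} [DecidableEq α] {C K0 : Finset α} {J : α} (hC : C.card = K0.card)
    (hJ : J ∈ C) (hsub : C.erase J ⊆ K0) :
    ∃ t ∈ K0, C = insert J (K0.erase t) := by
  have h1 : (C.erase J).card < K0.card := by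
    rw [Finset.card_erase_of_mem hJ, ← hC]
    have := Finset.card_pos.2 ⟨J, hJ⟩
    omega
  obtain ⟨t, ht, htC⟩ := Finset.exists_mem_notMem_of_card_lt_card h1
  refine ⟨t, ht, ?_⟩
  have h2 : C.erase J = K0.erase t := by
    apply Finset.eq_of_subset_of_card_le
    · intro x hx
      exact Finset.mem_erase.2 ⟨fun h => htC (h ▸ hx), hsub hx⟩
    · rw [Finset.card_erase_of_mem hJ, Finset.card_erase_of_mem ht, hC]
  rw [← h2, Finset.insert_erase hJ]

theorem hc_image_erase {C : Finset (Fin n)} {J t : Fin n} :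
    (insert J (C.erase t)).image (Sum.inl : Fin n → Fin n ⊕ Fin k) =
      insert (Sum.inl J) ((C.image Sum.inl).erase (Sum.inl t)) := by
  rw [Finset.image_insert, Finset.image_erase Sum.inl_injective]

theorem hc_count_nodup {V : Type} [DecidableEq V] (l : List V) (h : l.Nodup) (t : V) :
    l.count t ≤ 2 := (List.nodup_iff_count_le_one.1 h t).trans (by norm_num)

theorem hc_count_len {V : Type} [DecidableEq V] (l : List V) (h : l.length ≤ 2) (t : V) :
    l.count t ≤ 2 := List.count_le_length.trans h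

end Pool.Agent.BN
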